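import Pool.Agent.Helper35_FKP.Skw
import Pool.Agent.Helper45_FKP.GLM

/-!
# FKP: skew sums of good permutations are good
-/

set_option autoImplicit false

open Finset Equiv

noncomputable section

namespace Pool.Agent.FKP.H35

variable {m s N : ℕ}

/-- the ideal `Isy` evaluates to zero -/
theorem evi (hPie : PieStmt) {p : MvPolynomial (Fin N) ℤ} (hp : p ∈ Isy N) : ev N p = 0 := by
  rw [Isy] at hp
  induction hp using Submodule.span_induction with
  | mem z hz =>
    obtain ⟨k, hk, rfl⟩ := hz
    exact (hPie N N le_rfl).1 k hk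
  | zero => exact map_zero _
  | add a b _ _ ha hb => rw [map_add, ha, hb, add_zero]
  | smul c a _ ha => rw [smul_eq_mul, map_mul, ha, mul_zero]

/-- polynomials which agree modulo `Isy` have the same value -/
theorem ev_congr (hPie : PieStmt) {p q : MvPolynomial (Fin N) ℤ} (h : p - q ∈ Isy N) :
    ev N p = ev N q := by
  have := evi hPie h
  rwa [map_sub, sub_eq_zero] at this

theorem lo_mono : StrictMono (lo (m := m) (s := s)) := fun _ _ h => h

theorem hi_mono : StrictMono (hi (m := m) (s := s)) := fun a b h => by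
  have : (a : ℕ) < b := h
  simp only [hi, Fin.lt_def, Fin.val_addNat]; omega

theorem filter_lo : (univ.filter fun i : Fin (m + s) => i.val < s) =
    univ.image (lo (m := m) (s := s)) := by
  ext x
  simp only [mem_filter, mem_univ, true_and, mem_image]
  constructor
  · intro h
    exact ⟨⟨x.val, h⟩, rfl⟩
  · rintro ⟨i, rfl⟩
    exact i.isLt

theorem psc {α : Type} {T : Finset α} {k : ℕ} (h : T.card = k) : powersetCard k T = {T} := by
  subst h; exact powersetCard_self T

theorem ek_top : ek (m + s) s s = Fs m s := by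
  have hc : (univ.filter fun i : Fin (m + s) => i.val < s).card = s := by
    rw [filter_lo, card_image_of_injective _ lo_inj, card_univ, Fintype.card_fin]
  rw [ek]
  rw [psc hc, sum_singleton, filter_lo, prod_image (fun a _ b _ h => lo_inj h)]
  rfl

theorem ek_one : ek (m + s) s 1 = ∑ i : Fin s, MvPolynomial.X (lo i) := by
  rw [ek, powersetCard_one, sum_map, filter_lo, sum_image (fun a _ b _ h => lo_inj h)]
  simp

/-- sums over `m + s` -/
theorem sum_lo_hi {T : Type} [AddCommMonoid T] (g : Fin (m + s) → T) :
    ∑ x, g x = (∑ i : Fin s, g (lo i)) + ∑ a : Fin m, g (hi a) := by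
  have h1 : ∀ i : Fin s, (posn m s).symm (Sum.inl i) = lo i := fun i => by
    ext; simp [posn, lo]
  have h2 : ∀ a : Fin m, (posn m s).symm (Sum.inr a) = hi a := fun a => by
    ext; simp [posn, hi, add_comm]
  rw [← Equiv.sum_comp (posn m s).symm g, Fintype.sum_sum_type]
  simp only [h1, h2]

/-- if all mixed letters are in the ideal, the polynomials in the first Dunkl elements come from
the first block -/
theorem ev_lo (I : TwoSidedIdeal (A (m + s))) (hI : ∀ (i : Fin s) (a : Fin m),
    X (lo i) (hi a) ∈ I) (p : MvPolynomial (Fin s) ℤ) :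
    ev (m + s) (MvPolynomial.rename lo p) - iotE lo (lo_mono (m := m)) (ev s p) ∈ I := by
  induction p using MvPolynomial.induction_on with
  | C c =>
    rw [MvPolynomial.rename_C, ev_C, ev_C, map_intCast, sub_self]; exact zero_mem _
  | add p q hp hq =>
    have e : ev (m + s) (MvPolynomial.rename lo (p + q)) -
        iotE lo (lo_mono (m := m)) (ev s (p + q)) =
        (ev (m + s) (MvPolynomial.rename lo p) - iotE lo (lo_mono (m := m)) (ev s p)) +
        (ev (m + s) (MvPolynomial.rename lo q) - iotE lo (lo_mono (m := m)) (ev s q)) := by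
      rw [map_add, map_add, map_add, map_add]; abel
    rw [e]; exact add_mem hp hq
  | mul_X p i hp =>
    have h1 : θ (lo i) - iotE lo (lo_mono (m := m)) (θ i) ∈ I := by
      have : θ (lo i) - iotE lo (lo_mono (m := m)) (θ i) =
          ∑ a : Fin m, X (lo i) (hi a) := by
        rw [θ, sum_lo_hi, θ, map_sum]
        simp only [iotE_X]
        abel
      rw [this]
      exact sum_mem fun a _ => hI i a
    have e : ev (m + s) (MvPolynomial.rename lo (p * MvPolynomial.X i)) -
        iotE lo (lo_mono (m := m)) (ev s (p * MvPolynomial.X i)) =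
        (ev (m + s) (MvPolynomial.rename lo p) - iotE lo (lo_mono (m := m)) (ev s p)) *
          θ (lo i) + iotE lo (lo_mono (m := m)) (ev s p) *
          (θ (lo i) - iotE lo (lo_mono (m := m)) (θ i)) := by
      rw [map_mul, map_mul, map_mul, map_mul, MvPolynomial.rename_X, ev_X, ev_X, sub_mul, mul_sub]
      abel
    rw [e]
    exact add_mem (I.mul_mem_right _ _ hp) (I.mul_mem_left _ _ h1)

/-- the same for the last Dunkl elements -/
theorem ev_hi (I : TwoSidedIdeal (A (m + s))) (hI : ∀ (i : Fin s) (a : Fin m),
    X (lo i) (hi a) ∈ I) (p : MvPolynomial (Fin m) ℤ) :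
    ev (m + s) (MvPolynomial.rename hi p) - iotE hi (hi_mono (s := s)) (ev m p) ∈ I := by
  induction p using MvPolynomial.induction_on with
  | C c =>
    rw [MvPolynomial.rename_C, ev_C, ev_C, map_intCast, sub_self]; exact zero_mem _
  | add p q hp hq =>
    have e : ev (m + s) (MvPolynomial.rename hi (p + q)) -
        iotE hi (hi_mono (s := s)) (ev m (p + q)) =
        (ev (m + s) (MvPolynomial.rename hi p) - iotE hi (hi_mono (s := s)) (ev m p)) +
        (ev (m + s) (MvPolynomial.rename hi q) - iotE hi (hi_mono (s := s)) (ev m q)) := by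
      rw [map_add, map_add, map_add, map_add]; abel
    rw [e]; exact add_mem hp hq
  | mul_X p i hp =>
    have h1 : θ (hi i) - iotE hi (hi_mono (s := s)) (θ i) ∈ I := by
      have : θ (hi i) - iotE hi (hi_mono (s := s)) (θ i) =
          -∑ a : Fin s, X (lo a) (hi i) := by
        rw [θ, sum_lo_hi, θ, map_sum]
        simp only [iotE_X]
        rw [← sum_neg_distrib]
        have : ∀ a : Fin s, X (hi i) (lo a) = -(X (lo a) (hi i) : A (m + s)) := fun a =>
          X_neg _ _
        simp only [this]
        abel
      rw [this]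
      exact neg_mem (sum_mem fun a _ => hI a i)
    have e : ev (m + s) (MvPolynomial.rename hi (p * MvPolynomial.X i)) -
        iotE hi (hi_mono (s := s)) (ev m (p * MvPolynomial.X i)) =
        (ev (m + s) (MvPolynomial.rename hi p) - iotE hi (hi_mono (s := s)) (ev m p)) *
          θ (hi i) + iotE hi (hi_mono (s := s)) (ev m p) *
          (θ (hi i) - iotE hi (hi_mono (s := s)) (θ i)) := by
      rw [map_mul, map_mul, map_mul, map_mul, MvPolynomial.rename_X, ev_X, ev_X, sub_mul, mul_sub]
      abel
    rw [e]
    exact add_mem (I.mul_mem_right _ _ hp) (I.mul_mem_left _ _ h1)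

theorem skg (hPie : PieStmt) (hRct : RctStmt) : SkgStmt := by
  intro m s u v hu hv S hS
  obtain ⟨S1, S2, hS1, hS2, hfac⟩ := skw m s S hS
  have hf := hu S1 hS1
  have hg := hv S2 hS2
  have hy : ev (m + s) (Fs m s ^ m) ∈ P (m + s) := by
    rw [map_pow, ← ek_top]
    exact pow_mem (H45.out_le ((hPie (m + s) s (by omega)).2.1 s)) m
  have h0 : ev (m + s) (Fs m s ^ m * ek (m + s) s (0 + 1)) = 0 := by
    rw [zero_add, ek_one]
    exact evi hPie (hRct m s)
  have hI : ∀ (i : Fin s) (a : Fin m),
      X (lo i) (hi a) ∈ H45.kilI (ev (m + s) (Fs m s ^ m)) := by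
    intro i a
    have := H45.words hPie (j := s) (r := 0) (by omega) hy h0 [(lo i, hi a)] (by
      intro p hp
      simp only [List.mem_singleton] at hp
      subst hp
      left
      refine ⟨i.isLt, ?_⟩
      simp only [hi, Fin.val_addNat]; omega) (by
      rw [zero_add, Nat.one_le_iff_ne_zero, Finset.card_ne_zero]
      refine ⟨lo i, ?_⟩
      simp only [rows, List.map_cons, List.map_nil, List.toFinset_cons, List.toFinset_nil,
        insert_empty_eq, mem_filter, mem_singleton, true_and]
      exact i.isLt)
    simpa [wd] using this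
  have k1 := ev_lo _ hI (S1 u)
  have k2 := ev_hi _ hI (S2 v)
  have key : ev (m + s) (MvPolynomial.rename lo (S1 u)) *
      ev (m + s) (MvPolynomial.rename hi (S2 v)) -
      iotE lo (lo_mono (m := m)) (ev s (S1 u)) * iotE hi (hi_mono (s := s)) (ev m (S2 v)) ∈
      H45.kilI (ev (m + s) (Fs m s ^ m)) := by
    have e : ev (m + s) (MvPolynomial.rename lo (S1 u)) *
        ev (m + s) (MvPolynomial.rename hi (S2 v)) -
        iotE lo (lo_mono (m := m)) (ev s (S1 u)) * iotE hi (hi_mono (s := s)) (ev m (S2 v)) =
        (ev (m + s) (MvPolynomial.rename lo (S1 u)) -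
          iotE lo (lo_mono (m := m)) (ev s (S1 u))) *
          ev (m + s) (MvPolynomial.rename hi (S2 v)) +
        iotE lo (lo_mono (m := m)) (ev s (S1 u)) *
          (ev (m + s) (MvPolynomial.rename hi (S2 v)) -
            iotE hi (hi_mono (s := s)) (ev m (S2 v))) := by
      rw [sub_mul, mul_sub]; abel
    rw [e]
    exact add_mem (TwoSidedIdeal.mul_mem_right _ _ _ k1) (TwoSidedIdeal.mul_mem_left _ _ _ k2)
  rw [H45.mem_kilI] at key
  have := key 1
  rw [mul_one, mul_sub, sub_eq_zero] at this
  have hfac' : S (skew u v) = Fs m s ^ m * MvPolynomial.rename lo (S1 u) *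
      MvPolynomial.rename hi (S2 v) := hfac u v
  rw [hfac', map_mul, map_mul, mul_assoc, this]
  exact mul_mem hy (mul_mem (iotE_P _ _ hf) (iotE_P _ _ hg))

end Pool.Agent.FKP.H35
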