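import Pool.Agent.Helper35_FKP.Kit

/-!
# FKP: the Schubert polynomial of a skew sum
-/

set_option autoImplicit false

open Finset Equiv

noncomputable section

namespace Pool.Agent.FKP.H35

variable {m s : ℕ}

theorem lo_inj : Function.Injective (lo (m := m) (s := s)) := fun a b h => by
  simpa [lo, Fin.ext_iff] using h

theorem hi_inj : Function.Injective (hi (m := m) (s := s)) := fun a b h => by
  simpa [hi, Fin.ext_iff] using h

theorem lo_ne_hi (i : Fin s) (a : Fin m) : (lo i : Fin (m + s)) ≠ hi a := by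
  intro h
  have := congrArg Fin.val h
  simp only [lo, hi, Fin.val_addNat] at this
  omega

theorem skew_lo (u : Perm (Fin s)) (v : Perm (Fin m)) (i : Fin s) :
    skew u v (lo i) = Fin.natAdd m (u i) := by
  have h : posn m s (lo i) = Sum.inl i := by
    rw [posn, Equiv.trans_apply, Equiv.symm_apply_eq]
    ext; simp [lo]
  simp [skew, h]

theorem skew_hi (u : Perm (Fin s)) (v : Perm (Fin m)) (a : Fin m) :
    skew u v (hi a) = Fin.castAdd s (v a) := by
  have h : posn m s (hi a) = Sum.inr a := by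
    rw [posn, Equiv.trans_apply, Equiv.symm_apply_eq]
    ext; simp [hi]
  simp [skew, h]

theorem lo_or_hi (x : Fin (m + s)) : (∃ i, x = lo i) ∨ ∃ a, x = hi a := by
  by_cases h : x.val < s
  · exact Or.inl ⟨⟨x.val, h⟩, rfl⟩
  · refine Or.inr ⟨⟨x.val - s, by omega⟩, ?_⟩
    ext; simp [hi]; omega

theorem swap_lo_lo (i j k : Fin s) :
    swap (lo i) (lo j) (lo k : Fin (m + s)) = lo (swap i j k) := by
  by_cases h1 : k = i
  · subst h1; simp
  · by_cases h2 : k = j
    · subst h2; simp
    · rw [swap_apply_of_ne_of_ne h1 h2, swap_apply_of_ne_of_ne (lo_inj.ne h1) (lo_inj.ne h2)]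

theorem swap_lo_hi (i j : Fin s) (a : Fin m) :
    swap (lo i) (lo j) (hi a : Fin (m + s)) = hi a :=
  swap_apply_of_ne_of_ne (lo_ne_hi _ _).symm (lo_ne_hi _ _).symm

theorem swap_hi_hi (a b c : Fin m) :
    swap (hi a) (hi b) (hi c : Fin (m + s)) = hi (swap a b c) := by
  by_cases h1 : c = a
  · subst h1; simp
  · by_cases h2 : c = b
    · subst h2; simp
    · rw [swap_apply_of_ne_of_ne h1 h2, swap_apply_of_ne_of_ne (hi_inj.ne h1) (hi_inj.ne h2)]

theorem swap_hi_lo (a b : Fin m) (i : Fin s) :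
    swap (hi a) (hi b) (lo i : Fin (m + s)) = lo i :=
  swap_apply_of_ne_of_ne (lo_ne_hi _ _) (lo_ne_hi _ _)

theorem skew_mul_lo (u : Perm (Fin s)) (v : Perm (Fin m)) (i j : Fin s) :
    skew (u * swap i j) v = skew u v * swap (lo i) (lo j) := by
  ext x
  rcases lo_or_hi x with ⟨k, rfl⟩ | ⟨a, rfl⟩
  · rw [skew_lo, Perm.mul_apply, Perm.mul_apply, swap_lo_lo, skew_lo]
  · rw [skew_hi, Perm.mul_apply, swap_lo_hi, skew_hi]

theorem skew_mul_hi (u : Perm (Fin s)) (v : Perm (Fin m)) (a b : Fin m) :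
    skew u (v * swap a b) = skew u v * swap (hi a) (hi b) := by
  ext x
  rcases lo_or_hi x with ⟨k, rfl⟩ | ⟨c, rfl⟩
  · rw [skew_lo, Perm.mul_apply, swap_hi_lo, skew_lo]
  · rw [skew_hi, Perm.mul_apply, Perm.mul_apply, swap_hi_hi, skew_hi]

theorem skew_rev : skew (Fin.revPerm : Perm (Fin s)) (Fin.revPerm : Perm (Fin m)) =
    Fin.revPerm := by
  ext x
  rcases lo_or_hi x with ⟨k, rfl⟩ | ⟨c, rfl⟩
  · rw [skew_lo]; simp [lo, Fin.val_rev]; omega
  · rw [skew_hi]; simp [hi, Fin.val_rev]; omega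

/-! ### renaming -/

theorem rename_lo_lo (i j : Fin s) (f : MvPolynomial (Fin s) ℤ) :
    MvPolynomial.rename (swap (lo i) (lo j) : Perm (Fin (m + s))) (MvPolynomial.rename lo f) =
      MvPolynomial.rename lo (MvPolynomial.rename (swap i j) f) := by
  rw [MvPolynomial.rename_rename, MvPolynomial.rename_rename]
  have : (⇑(swap (lo i) (lo j) : Perm (Fin (m + s))) ∘ lo) = lo ∘ ⇑(swap i j) := by
    funext k; exact swap_lo_lo i j k
  rw [this]

theorem rename_lo_hi (i j : Fin s) (f : MvPolynomial (Fin m) ℤ) :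
    MvPolynomial.rename (swap (lo i) (lo j) : Perm (Fin (m + s))) (MvPolynomial.rename hi f) =
      MvPolynomial.rename hi f := by
  rw [MvPolynomial.rename_rename]
  have : (⇑(swap (lo i) (lo j) : Perm (Fin (m + s))) ∘ hi) = hi := by
    funext k; exact swap_lo_hi i j k
  rw [this]

theorem rename_hi_hi (a b : Fin m) (f : MvPolynomial (Fin m) ℤ) :
    MvPolynomial.rename (swap (hi a) (hi b) : Perm (Fin (m + s))) (MvPolynomial.rename hi f) =
      MvPolynomial.rename hi (MvPolynomial.rename (swap a b) f) := by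
  rw [MvPolynomial.rename_rename, MvPolynomial.rename_rename]
  have : (⇑(swap (hi a) (hi b) : Perm (Fin (m + s))) ∘ hi) = hi ∘ ⇑(swap a b) := by
    funext k; exact swap_hi_hi a b k
  rw [this]

theorem rename_hi_lo (a b : Fin m) (f : MvPolynomial (Fin s) ℤ) :
    MvPolynomial.rename (swap (hi a) (hi b) : Perm (Fin (m + s))) (MvPolynomial.rename lo f) =
      MvPolynomial.rename lo f := by
  rw [MvPolynomial.rename_rename]
  have : (⇑(swap (hi a) (hi b) : Perm (Fin (m + s))) ∘ lo) = lo := by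
    funext k; exact swap_hi_lo a b k
  rw [this]

/-- the product of the first `s` variables -/
def Fs (m s : ℕ) : MvPolynomial (Fin (m + s)) ℤ := ∏ i : Fin s, MvPolynomial.X (lo i)

theorem Fs_eq : Fs m s = MvPolynomial.rename lo (∏ i : Fin s, MvPolynomial.X i) := by
  simp [Fs]

theorem rename_lo_Fs (i j : Fin s) :
    MvPolynomial.rename (swap (lo i) (lo j) : Perm (Fin (m + s))) (Fs m s) = Fs m s := by
  rw [Fs_eq, rename_lo_lo]
  congr 1
  rw [map_prod]
  simp only [MvPolynomial.rename_X]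
  exact Equiv.prod_comp (swap i j) (fun i => (MvPolynomial.X i : MvPolynomial (Fin s) ℤ))

theorem rename_hi_Fs (a b : Fin m) :
    MvPolynomial.rename (swap (hi a) (hi b) : Perm (Fin (m + s))) (Fs m s) = Fs m s := by
  rw [Fs_eq, rename_hi_lo]

theorem Fs_ne : Fs m s ≠ 0 := by
  rw [Fs, prod_ne_zero_iff]
  exact fun i _ => MvPolynomial.X_ne_zero _

/-- the monomial of the longest element -/
def tp (N : ℕ) : MvPolynomial (Fin N) ℤ := ∏ j : Fin N, MvPolynomial.X j ^ (N - 1 - (j : ℕ))

theorem tp_ne (N : ℕ) : tp N ≠ 0 := by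
  rw [tp, prod_ne_zero_iff]
  exact fun i _ => pow_ne_zero _ (MvPolynomial.X_ne_zero _)

theorem ren_lo_ne {f : MvPolynomial (Fin s) ℤ} (h : f ≠ 0) :
    MvPolynomial.rename (lo (m := m)) f ≠ 0 := fun h0 =>
  h (MvPolynomial.rename_injective lo lo_inj (by rw [h0, map_zero]))

theorem ren_hi_ne {f : MvPolynomial (Fin m) ℤ} (h : f ≠ 0) :
    MvPolynomial.rename (hi (s := s)) f ≠ 0 := fun h0 =>
  h (MvPolynomial.rename_injective hi hi_inj (by rw [h0, map_zero]))

/-- products over `m + s` -/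
theorem prod_lo_hi (g : Fin (m + s) → MvPolynomial (Fin (m + s)) ℤ) :
    ∏ x, g x = (∏ i : Fin s, g (lo i)) * ∏ a : Fin m, g (hi a) := by
  have h1 : ∀ i : Fin s, (posn m s).symm (Sum.inl i) = lo i := fun i => by
    ext; simp [posn, lo]
  have h2 : ∀ a : Fin m, (posn m s).symm (Sum.inr a) = hi a := fun a => by
    ext; simp [posn, hi, add_comm]
  rw [← Equiv.prod_comp (posn m s).symm g, Fintype.prod_sum_type]
  simp only [h1, h2]

theorem tp_eq : tp (m + s) = Fs m s ^ m * MvPolynomial.rename lo (tp s) *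
    MvPolynomial.rename hi (tp m) := by
  rw [tp, prod_lo_hi, tp, tp, Fs, map_prod, map_prod, ← prod_pow, ← prod_mul_distrib]
  congr 1
  · refine prod_congr rfl fun i _ => ?_
    rw [map_pow, MvPolynomial.rename_X, ← pow_add]
    congr 1
    simp only [lo]; omega
  · refine prod_congr rfl fun a _ => ?_
    rw [map_pow, MvPolynomial.rename_X]
    congr 1
    simp only [hi, Fin.val_addNat]; omega

theorem adj_lo {i j : Fin s} (h : (i : ℕ) + 1 = j) :
    ((lo i : Fin (m + s)) : ℕ) + 1 = (lo j : Fin (m + s)) := h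

theorem adj_hi {a b : Fin m} (h : (a : ℕ) + 1 = b) :
    ((hi a : Fin (m + s)) : ℕ) + 1 = (hi b : Fin (m + s)) := by
  simp only [hi, Fin.val_addNat]; omega

theorem adj_ne {N : ℕ} {i j : Fin N} (h : (i : ℕ) + 1 = j) : i ≠ j := fun e => by
  subst e; omega

theorem desc_lo {u : Perm (Fin s)} {v : Perm (Fin m)} {i j : Fin s} (h : u j < u i) :
    skew u v (lo j) < skew u v (lo i) := by
  rw [skew_lo, skew_lo]
  have : (u j : ℕ) < u i := h
  simp only [Fin.lt_def, Fin.val_natAdd]; omega

theorem desc_hi {u : Perm (Fin s)} {v : Perm (Fin m)} {a b : Fin m} (h : v b < v a) :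
    skew u v (hi b) < skew u v (hi a) := by
  rw [skew_hi, skew_hi]; exact h

/-- one step in the first block -/
theorem step_lo {S : Perm (Fin (m + s)) → MvPolynomial (Fin (m + s)) ℤ} (hS : IsSch (m + s) S)
    {u : Perm (Fin s)} {v : Perm (Fin m)} {i j : Fin s} (hij : (i : ℕ) + 1 = j) (h : u j < u i)
    {f f' : MvPolynomial (Fin s) ℤ} {g : MvPolynomial (Fin m) ℤ}
    (e : S (skew u v) = Fs m s ^ m * MvPolynomial.rename lo f * MvPolynomial.rename hi g)
    (hf : (MvPolynomial.X i - MvPolynomial.X j) * f' = f - MvPolynomial.rename (swap i j) f) :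
    S (skew (u * swap i j) v) =
      Fs m s ^ m * MvPolynomial.rename lo f' * MvPolynomial.rename hi g := by
  have h1 := hS.2 (skew u v) (lo i) (lo j) (adj_lo hij) (desc_lo h)
  rw [← skew_mul_lo] at h1
  refine mul_left_cancel₀ (X_sub_ne (lo_inj.ne (adj_ne hij))) (h1.trans ?_)
  rw [e, map_mul, map_mul, map_pow, rename_lo_Fs, rename_lo_lo, rename_lo_hi]
  have h2 : MvPolynomial.rename (lo (m := m)) f -
      MvPolynomial.rename lo (MvPolynomial.rename (swap i j) f) =
      (MvPolynomial.X (lo i) - MvPolynomial.X (lo j)) * MvPolynomial.rename lo f' := by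
    rw [← map_sub, ← hf, map_mul, map_sub, MvPolynomial.rename_X, MvPolynomial.rename_X]
  calc _ = Fs m s ^ m * (MvPolynomial.rename (lo (m := m)) f -
      MvPolynomial.rename lo (MvPolynomial.rename (swap i j) f)) * MvPolynomial.rename hi g := by
        ring
    _ = _ := by rw [h2]; ring

/-- one step in the second block -/
theorem step_hi {S : Perm (Fin (m + s)) → MvPolynomial (Fin (m + s)) ℤ} (hS : IsSch (m + s) S)
    {u : Perm (Fin s)} {v : Perm (Fin m)} {i j : Fin m} (hij : (i : ℕ) + 1 = j) (h : v j < v i)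
    {f : MvPolynomial (Fin s) ℤ} {g g' : MvPolynomial (Fin m) ℤ}
    (e : S (skew u v) = Fs m s ^ m * MvPolynomial.rename lo f * MvPolynomial.rename hi g)
    (hg : (MvPolynomial.X i - MvPolynomial.X j) * g' = g - MvPolynomial.rename (swap i j) g) :
    S (skew u (v * swap i j)) =
      Fs m s ^ m * MvPolynomial.rename lo f * MvPolynomial.rename hi g' := by
  have h1 := hS.2 (skew u v) (hi i) (hi j) (adj_hi hij) (desc_hi h)
  rw [← skew_mul_hi] at h1
  refine mul_left_cancel₀ (X_sub_ne (hi_inj.ne (adj_ne hij))) (h1.trans ?_)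
  rw [e, map_mul, map_mul, map_pow, rename_hi_Fs, rename_hi_lo, rename_hi_hi]
  have h2 : MvPolynomial.rename (hi (s := s)) g -
      MvPolynomial.rename hi (MvPolynomial.rename (swap i j) g) =
      (MvPolynomial.X (hi i) - MvPolynomial.X (hi j)) * MvPolynomial.rename hi g' := by
    rw [← map_sub, ← hg, map_mul, map_sub, MvPolynomial.rename_X, MvPolynomial.rename_X]
  calc _ = Fs m s ^ m * MvPolynomial.rename lo f * (MvPolynomial.rename (hi (s := s)) g -
      MvPolynomial.rename hi (MvPolynomial.rename (swap i j) g)) := by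
        ring
    _ = _ := by rw [h2]; ring

theorem ex_lo {S : Perm (Fin (m + s)) → MvPolynomial (Fin (m + s)) ℤ} (hS : IsSch (m + s) S)
    (u : Perm (Fin s)) : ∃ f : MvPolynomial (Fin s) ℤ,
      S (skew u Fin.revPerm) = Fs m s ^ m * MvPolynomial.rename lo f *
        MvPolynomial.rename hi (tp m) := by
  induction u using down_induction with
  | h0 => exact ⟨tp s, by rw [skew_rev, hS.1]; exact tp_eq⟩
  | hs u i j hij h ih =>
    obtain ⟨f, hf⟩ := ih
    obtain ⟨f', hf'⟩ := ddx i j f
    exact ⟨f', step_lo hS hij h hf hf'.symm⟩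

theorem ex_hi {S : Perm (Fin (m + s)) → MvPolynomial (Fin (m + s)) ℤ} (hS : IsSch (m + s) S)
    (v : Perm (Fin m)) : ∃ g : MvPolynomial (Fin m) ℤ,
      S (skew Fin.revPerm v) = Fs m s ^ m * MvPolynomial.rename lo (tp s) *
        MvPolynomial.rename hi g := by
  induction v using down_induction with
  | h0 => exact ⟨tp m, by rw [skew_rev, hS.1]; exact tp_eq⟩
  | hs v i j hij h ih =>
    obtain ⟨g, hg⟩ := ih
    obtain ⟨g', hg'⟩ := ddx i j g
    exact ⟨g', step_hi hS hij h hg hg'.symm⟩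

theorem skw : SkwStmt := by
  intro m s S hS
  let S1 : Perm (Fin s) → MvPolynomial (Fin s) ℤ := fun u => (ex_lo hS u).choose
  let S2 : Perm (Fin m) → MvPolynomial (Fin m) ℤ := fun v => (ex_hi hS v).choose
  have hS1 : ∀ u, S (skew u Fin.revPerm) = Fs m s ^ m * MvPolynomial.rename lo (S1 u) *
      MvPolynomial.rename hi (tp m) := fun u => (ex_lo hS u).choose_spec
  have hS2 : ∀ v, S (skew Fin.revPerm v) = Fs m s ^ m * MvPolynomial.rename lo (tp s) *
      MvPolynomial.rename hi (S2 v) := fun v => (ex_hi hS v).choose_spec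
  have hF : Fs m s ^ m ≠ 0 := pow_ne_zero _ Fs_ne
  have top : S (skew Fin.revPerm Fin.revPerm) = Fs m s ^ m * MvPolynomial.rename lo (tp s) *
      MvPolynomial.rename hi (tp m) := by rw [skew_rev, hS.1]; exact tp_eq
  have can1 : ∀ {f f' : MvPolynomial (Fin s) ℤ}, Fs m s ^ m * MvPolynomial.rename lo f *
      MvPolynomial.rename hi (tp m) = Fs m s ^ m * MvPolynomial.rename lo f' *
      MvPolynomial.rename hi (tp m) → f = f' := by
    intro f f' h
    have h1 := mul_right_cancel₀ (ren_hi_ne (tp_ne m)) h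
    exact MvPolynomial.rename_injective lo lo_inj (mul_left_cancel₀ hF h1)
  have can2 : ∀ {g g' : MvPolynomial (Fin m) ℤ}, Fs m s ^ m * MvPolynomial.rename lo (tp s) *
      MvPolynomial.rename hi g = Fs m s ^ m * MvPolynomial.rename lo (tp s) *
      MvPolynomial.rename hi g' → g = g' := by
    intro g g' h
    exact MvPolynomial.rename_injective hi hi_inj
      (mul_left_cancel₀ (mul_ne_zero hF (ren_lo_ne (tp_ne s))) h)
  have t1 : S1 Fin.revPerm = tp s := can1 ((hS1 _).symm.trans top)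
  have t2 : S2 Fin.revPerm = tp m := can2 ((hS2 _).symm.trans top)
  have r1 : ∀ (u : Perm (Fin s)) (i j : Fin s), (i : ℕ) + 1 = j → u j < u i →
      (MvPolynomial.X i - MvPolynomial.X j) * S1 (u * swap i j) =
        S1 u - MvPolynomial.rename (swap i j) (S1 u) := by
    intro u i j hij h
    obtain ⟨f', hf'⟩ := ddx i j (S1 u)
    have h1 := step_lo hS hij h (hS1 u) hf'.symm
    rw [hf', can1 ((hS1 _).symm.trans h1)]
  have r2 : ∀ (v : Perm (Fin m)) (i j : Fin m), (i : ℕ) + 1 = j → v j < v i →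
      (MvPolynomial.X i - MvPolynomial.X j) * S2 (v * swap i j) =
        S2 v - MvPolynomial.rename (swap i j) (S2 v) := by
    intro v i j hij h
    obtain ⟨g', hg'⟩ := ddx i j (S2 v)
    have h1 := step_hi hS hij h (hS2 v) hg'.symm
    rw [hg', can2 ((hS2 _).symm.trans h1)]
  refine ⟨S1, S2, ⟨t1, r1⟩, ⟨t2, r2⟩, fun u v => ?_⟩
  show S (skew u v) = Fs m s ^ m * MvPolynomial.rename lo (S1 u) * MvPolynomial.rename hi (S2 v)
  induction u using down_induction with
  | h0 => rw [hS2, t1]
  | hs u i j hij h ih => exact step_lo hS hij h ih (r1 u i j hij h)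

end Pool.Agent.FKP.H35
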