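import Pool.Agent.Helper35_FKP.Skg
import Pool.Agent.Helper20_FKP.Dug
import Pool.Agent.Helper20_FKP.Pie
import Pool.Agent.Helper2_FKP.Tee
import Pool.Agent.Helper2_FKP.Top
import Pool.Agent.Helper3_FKP.Asc
import Pool.Agent.Helper3_FKP.Rct
import Pool.Agent.Helper9_FKP.GLU
import Pool.Agent.Helper17_FKP.Aut
import Pool.Agent.Helper65_FKP.SYM
import Pool.Agent.Helper71_FKP.Dua
import Pool.Agent.Helper71_FKP.Str
import Pool.Agent.Helper75_FKP.Gl
import Pool.Agent.Helper76_FKP.Cyc
import Pool.Agent.Helper77_FKP.Ddi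
import Pool.Agent.Helper86_FKP.Brg
import Pool.Agent.Helper86_FKP.Col
import Pool.Agent.Helper86_FKP.Glg

/-!
# FKP: assembly
-/

set_option autoImplicit false

noncomputable section

namespace Pool.Agent.FKP.All

theorem pie : PieStmt := H20.pie H71.str H86.col
theorem glm : GlmStmt := H45.glm pie H9.glu
theorem tee : TeeStmt := H2.tee (H20.pix H71.str H86.col)
theorem cyc : CycStmt := H76.cyc H2.top Pool.Agent.FKP.ddi
theorem gls : GlsStmt := H75.gls H35.skw H2.top cyc Pool.Agent.FKP.ddi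
theorem glr : GlrStmt := H75.glr H35.skw H2.top cyc Pool.Agent.FKP.ddi
theorem dua : DuaStmt := H71.dua H2.top Pool.Agent.FKP.ddi
theorem skg : SkgStmt := H35.skg pie H3.rct
theorem glg : GlgStmt := H86.glg gls glr H3.asc H65.sym glm pie
theorem dug : DugStmt := H20.dug pie dua H17.aut

end Pool.Agent.FKP.All
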