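import Pool.Agent.FKP.FinDefs

/-!
# FKP: the class theorem
-/

set_option autoImplicit false

open Finset Equiv

noncomputable section

namespace Pool.Agent.FKP.H35

theorem bas : BasStmt := by
  intro N f hf
  induction hf with
  | e j k hj => exact H45.out_le ((All.pie N j hj).2.1 k)
  | t M r p q h1 h2 h3 h4 => exact All.tee N M r p q h1 h2 h3 h4
  | @d f _ ih =>
    obtain ⟨ρ, -, hρ, hev⟩ := H17.aut N
    rw [revp, ← hev]
    exact hρ _ ih

theorem toA_dunkl {N : ℕ} (j : Fin N) : toA N (dunkl j) = θ j := by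
  rw [dunkl, map_sum, ← theta_eq j]
  refine sum_congr rfl fun q _ => ?_
  split_ifs
  · rw [map_neg]
  · rfl
  · rw [map_zero]

theorem ofFn_prod {N : ℕ} (m : Fin N →₀ ℕ) :
    (List.ofFn fun j : Fin N => θ j ^ m j).prod =
      ev N (∏ j : Fin N, MvPolynomial.X j ^ m j) := by
  have : (∏ j : Fin N, MvPolynomial.X j ^ m j : MvPolynomial (Fin N) ℤ) =
      (List.ofFn fun j : Fin N => MvPolynomial.X j ^ m j).prod := (List.prod_ofFn).symm
  rw [this, map_list_prod, List.map_ofFn]
  congr 2
  funext j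
  simp

theorem toA_evE {N : ℕ} (p : MvPolynomial (Fin N) ℤ) : toA N (evE N p) = ev N p := by
  conv_rhs => rw [MvPolynomial.as_sum p]
  rw [evE, map_sum, map_sum]
  refine sum_congr rfl fun m _ => ?_
  rw [map_zsmul, map_list_prod, List.map_ofFn]
  have h1 : (⇑(toA N) ∘ fun j : Fin N => dunkl j ^ m j) = fun j : Fin N => θ j ^ m j := by
    funext j; simp [toA_dunkl]
  rw [h1, ofFn_prod]
  have h2 : (MvPolynomial.monomial m (p.coeff m) : MvPolynomial (Fin N) ℤ) =
      p.coeff m • ∏ j : Fin N, MvPolynomial.X j ^ m j := by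
    rw [MvPolynomial.monomial_eq, Finsupp.prod_fintype _ _ (fun i => pow_zero _),
      MvPolynomial.smul_eq_C_mul]
  rw [h2, map_zsmul]

theorem qif : QifStmt := by
  intro N w
  constructor
  · intro h S hS
    obtain ⟨L, hL⟩ := h S hS
    rw [← toA_evE, hL]
    refine toA_mem ?_
    refine list_sum_mem ?_
    intro t ht
    obtain ⟨u, -, rfl⟩ := List.mem_map.1 ht
    refine list_prod_mem ?_
    intro y hy
    obtain ⟨p, -, rfl⟩ := List.mem_map.1 hy
    exact lt_mem p
  · intro h S hS
    have h1 := h S hS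
    rw [← toA_evE] at h1
    obtain ⟨L, hL⟩ := exists_list (posE_of_toA h1)
    refine ⟨L, hL.trans ?_⟩
    rw [map_list_sum, List.map_map]
    congr 2
    funext u
    simp only [Function.comp_apply, map_list_prod, List.map_map]
    rfl

theorem one_good (N : ℕ) : good N 1 := by
  intro S hS
  have := (All.cyc N S hS).1
  rw [ev_congr All.pie this, map_one]
  exact one_mem _

theorem cls_good (B : ∀ N : ℕ, Perm (Fin N) → Prop) (hB : ∀ N w, B N w → good N w) :
    ∀ N w, Cls B N w → good N w := by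
  intro N w h
  induction h with
  | base h => exact hB _ _ h
  | one N => exact one_good N
  | mul f _ hf hS ih =>
    intro S h
    rw [ev_congr All.pie (hS S h), map_mul]
    exact mul_mem (ih S h) (bas _ _ hf)
  | prod _ _ hS ih1 ih2 =>
    intro S h
    rw [ev_congr All.pie (hS S h), map_mul]
    exact mul_mem (ih1 S h) (ih2 S h)
  | skew _ _ ih1 ih2 => exact All.skg _ _ _ _ ih1 ih2
  | glue r h1 h2 h3 _ _ ih1 ih2 => exact All.glg _ _ r _ _ h1 h2 h3 ih1 ih2
  | revc _ ih => exact All.dug _ _ ih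

theorem cls : ClsStmt := by
  intro B hB N w h
  exact (qif N w).2 (cls_good B (fun N w h => (qif N w).1 (hB N w h)) N w h)

end Pool.Agent.FKP.H35
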