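import Pool.Agent.Helper45_FKP.POS
import Pool.Agent.Helper35_FKP.Cls
import Pool.Agent.Helper25_FKP.Pat
import Pool.Agent.Helper9_FKP.Sml
import Pool.Agent.Helper75_FKP.T2

/-!
# FKP: the class of permutations of the hand-in
-/

set_option autoImplicit false

open Finset Equiv

noncomputable section

namespace Pool.Agent.FKP

/-- Basic positive polynomials in `N` variables: generated by `e_k(x_1, .., x_j)`, by
`e_p(x_1, .., x_M) e_q(x_1, .., x_(M-r)) - e_(p+q)(x_1, .., x_M)`, `r ≤ p`, `1 ≤ q`, and by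
`(-x_N)^(N-2) e_(k+1)(x_1, .., x_j, x_N)`, `k < j < N`, under sums, products and the substitution
`x_i ↦ -x_(N+1-i)`. -/
inductive Bpos (N : ℕ) : MvPolynomial (Fin N) ℤ → Prop
  | e (j k : ℕ) : j ≤ N → Bpos N (ek N j k)
  | t (M r p q : ℕ) : r ≤ p → 1 ≤ q → r ≤ M → M ≤ N →
      Bpos N (ek N M p * ek N (M - r) q - ek N M (p + q))
  | h (t : Fin N) (j k : ℕ) : t.val + 1 = N → k < j → j < N →
      Bpos N ((-MvPolynomial.X t) ^ (N - 2) * (ek N j (k + 1) + MvPolynomial.X t * ek N j k))
  | add {f g : MvPolynomial (Fin N) ℤ} : Bpos N f → Bpos N g → Bpos N (f + g)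
  | mul {f g : MvPolynomial (Fin N) ℤ} : Bpos N f → Bpos N g → Bpos N (f * g)
  | flip {f : MvPolynomial (Fin N) ℤ} : Bpos N f →
      Bpos N (MvPolynomial.eval₂ MvPolynomial.C (fun i => -MvPolynomial.X (Fin.rev i)) f)

/-- The class of permutations generated by `B`. -/
inductive Gen (B : ∀ N : ℕ, Perm (Fin N) → Prop) : ∀ N : ℕ, Perm (Fin N) → Prop
  /-- the members of `B` -/
  | base {N : ℕ} {w : Perm (Fin N)} : B N w → Gen B N w
  /-- permutations of at most four letters -/
  | small {N : ℕ} {w : Perm (Fin N)} : N ≤ 4 → Gen B N w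
  /-- permutations which avoid 1324, 2143 and 3142 -/
  | avoid {N : ℕ} {w : Perm (Fin N)} : Avo w → Gen B N w
  /-- `S w` is the product of Schubert polynomials of the class and of a basic positive polynomial,
  modulo the symmetric polynomials without constant term -/
  | mul {N : ℕ} {w : Perm (Fin N)} (L : List (Perm (Fin N))) (f : MvPolynomial (Fin N) ℤ) :
      (∀ u ∈ L, Gen B N u) → Bpos N f →
      (∀ S, IsSch N S → S w - (L.map S).prod * f ∈ Isy N) → Gen B N w
  /-- skew sums -/
  | skew {m s : ℕ} {u : Perm (Fin s)} {v : Perm (Fin m)} : Gen B s u → Gen B m v →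
      Gen B (m + s) (skew u v)
  /-- glueing: `v` is increasing on the first `r` positions, the values `< m` of `u` are in
  increasing order, the `s` values above are among the first `r + s` ones; `low s v * u` is `u`
  with its values `< m` permuted by `v` -/
  | glue {m s : ℕ} (r : ℕ) {v : Perm (Fin m)} {u : Perm (Fin (m + s))} :
      (∀ a b : Fin m, a < b → b.val < r → v a < v b) →
      (∀ a b : Fin (m + s), a < b → (u b).val < m → (u a).val < m → u a < u b) →
      (∀ a : Fin (m + s), r + s ≤ a.val → (u a).val < m) →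
      Gen B (m + s) u → Gen B m v → Gen B (m + s) (low s v * u)
  /-- conjugation with the longest element -/
  | revc {N : ℕ} {w : Perm (Fin N)} : Gen B N w → Gen B N (revc w)

namespace H35

theorem bpos_ev {N : ℕ} {f : MvPolynomial (Fin N) ℤ} (h : Bpos N f) : ev N f ∈ P N := by
  induction h with
  | e j k hj => exact H45.ek_pos hj
  | t M r p q h1 h2 h3 h4 => exact Fin1.tee _ M r p q h1 h2 h3 h4
  | h t j k ht hk hj =>
    match N, t, ht, hk, hj with
    | 0, t, _, _, _ => exact t.elim0
    | 1, _, _, hk, hj => omega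
    | n + 2, t, ht, hk, hj =>
      have : t = Fin.last (n + 1) := by ext; simp only [Fin.val_last]; omega
      subst this
      exact H75.tt2 n j k hk (by omega)
  | add _ _ ih1 ih2 => rw [map_add]; exact add_mem ih1 ih2
  | mul _ _ ih1 ih2 => rw [map_mul]; exact mul_mem ih1 ih2
  | flip _ ih => exact H45.flip_pos ih

theorem gen_good {B : ∀ N : ℕ, Perm (Fin N) → Prop} (hB : ∀ N w, B N w → good N w) {N : ℕ}
    {w : Perm (Fin N)} (h : Gen B N w) : good N w := by
  induction h with
  | base h => exact hB _ _ h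
  | small h => exact (qif _ _).1 (cls noB (fun _ _ h => h.elim) _ _ (H9.sml _ _ (Sml.small _ h)))
  | avoid h => exact H45.built_good (H25.pat Fin1.cyc (H71.dua Fin1.top ddi) _ _ h)
  | mul L f _ hf hS ih =>
    intro S h
    have h1 := hS S h
    rw [H86.ev_eq Fin1.pie h1, map_mul]
    refine mul_mem ?_ (bpos_ev hf)
    rw [map_list_prod, List.map_map]
    refine list_prod_mem ?_
    intro y hy
    obtain ⟨u, hu, rfl⟩ := List.mem_map.1 hy
    exact ih u hu S h
  | skew _ _ ih1 ih2 => exact Fin1.skg _ _ _ _ ih1 ih2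
  | glue r h1 h2 h3 _ _ ih1 ih2 => exact Fin1.glg _ _ r _ _ h1 h2 h3 ih1 ih2
  | revc _ ih => exact Fin1.dug _ _ ih

theorem gen_Q1 {B : ∀ N : ℕ, Perm (Fin N) → Prop} (hB : ∀ N (w : Perm (Fin N)), B N w → Q1 N w)
    (N : ℕ) (w : Perm (Fin N)) (h : Gen B N w) : Q1 N w :=
  (qif N w).2 (gen_good (fun N w hw => (qif N w).1 (hB N w hw)) h)

end H35

end Pool.Agent.FKP
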