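import Pool.Agent.FKP.StmtsS

/-!
# FKP: tools for Schubert families
-/

set_option autoImplicit false

open Finset Equiv

noncomputable section

namespace Pool.Agent.FKP.H35

variable {N : ℕ}

/-! ### divided differences -/

theorem X_sub_ne {i j : Fin N} (h : i ≠ j) :
    (MvPolynomial.X i - MvPolynomial.X j : MvPolynomial (Fin N) ℤ) ≠ 0 := by
  intro h0
  exact h (MvPolynomial.X_injective (sub_eq_zero.1 h0))

theorem swap_swap (i j : Fin N) (p : MvPolynomial (Fin N) ℤ) :
    MvPolynomial.rename (swap i j) (MvPolynomial.rename (swap i j) p) = p := by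
  rw [MvPolynomial.rename_rename]
  have : (⇑(swap i j) ∘ ⇑(swap i j)) = id := by
    funext x; simp
  rw [this, MvPolynomial.rename_id_apply]

theorem ddx (i j : Fin N) (p : MvPolynomial (Fin N) ℤ) :
    (MvPolynomial.X i - MvPolynomial.X j) ∣ p - MvPolynomial.rename (swap i j) p := by
  induction p using MvPolynomial.induction_on with
  | C c => simp
  | add p q hp hq =>
    rw [map_add]
    have : p + q - (MvPolynomial.rename (swap i j) p + MvPolynomial.rename (swap i j) q) =
      (p - MvPolynomial.rename (swap i j) p) + (q - MvPolynomial.rename (swap i j) q) := by ring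
    rw [this]; exact dvd_add hp hq
  | mul_X p k hp =>
    rw [map_mul, MvPolynomial.rename_X]
    have e : p * MvPolynomial.X k - MvPolynomial.rename (swap i j) p *
        MvPolynomial.X (swap i j k) =
      (p - MvPolynomial.rename (swap i j) p) * MvPolynomial.X k +
        MvPolynomial.rename (swap i j) p * (MvPolynomial.X k - MvPolynomial.X (swap i j k)) := by
      ring
    rw [e]
    refine dvd_add (Dvd.dvd.mul_right hp _) (Dvd.dvd.mul_left ?_ _)
    by_cases h1 : k = i
    · subst h1; rw [swap_apply_left]
    · by_cases h2 : k = j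
      · subst h2; rw [swap_apply_right, ← neg_sub, neg_dvd]
      · rw [swap_apply_of_ne_of_ne h1 h2, sub_self]; exact dvd_zero _

/-- `f` symmetric: the divided difference of `f * g` -/
theorem dd_mul {i j : Fin N} {f g h : MvPolynomial (Fin N) ℤ}
    (hf : MvPolynomial.rename (swap i j) f = f)
    (hg : (MvPolynomial.X i - MvPolynomial.X j) * h = g - MvPolynomial.rename (swap i j) g) :
    (MvPolynomial.X i - MvPolynomial.X j) * (f * h) =
      f * g - MvPolynomial.rename (swap i j) (f * g) := by
  rw [map_mul, hf, ← mul_sub, ← hg]; ring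

theorem dd_unique {i j : Fin N} (hij : i ≠ j) {g h h' : MvPolynomial (Fin N) ℤ}
    (h1 : (MvPolynomial.X i - MvPolynomial.X j) * h = g)
    (h2 : (MvPolynomial.X i - MvPolynomial.X j) * h' = g) : h = h' :=
  mul_left_cancel₀ (X_sub_ne hij) (h1.trans h2.symm)

/-! ### downward induction -/

/-- a measure which decreases when an ascent is removed -/
def mu (w : Perm (Fin N)) : ℕ := ∑ i : Fin N, (i : ℕ) * (w i : ℕ)

theorem mu_lt {w : Perm (Fin N)} {i j : Fin N} (hij : i < j) (h : w i < w j) :
    mu (w * swap i j) < mu w := by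
  have e1 : mu (w * swap i j) = ∑ k : Fin N, ((swap i j k : Fin N) : ℕ) * (w k : ℕ) := by
    unfold mu
    rw [← Equiv.sum_comp (swap i j) (fun k => ((swap i j k : Fin N) : ℕ) * (w k : ℕ))]
    refine sum_congr rfl fun k _ => ?_
    rw [Equiv.swap_apply_self]; rfl
  have e2 : ∀ f : Fin N → ℕ, ∑ k : Fin N, f k * (w k : ℕ) =
      ∑ k ∈ univ \ {i, j}, f k * (w k : ℕ) + (f i * (w i : ℕ) + f j * (w j : ℕ)) := by
    intro f
    rw [← sum_sdiff (subset_univ ({i, j} : Finset (Fin N))), sum_pair hij.ne]
  rw [e1, mu, e2, e2 fun k => (k : ℕ)]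
  have e3 : ∑ k ∈ univ \ {i, j}, ((swap i j k : Fin N) : ℕ) * (w k : ℕ) =
      ∑ k ∈ univ \ {i, j}, (k : ℕ) * (w k : ℕ) := by
    refine sum_congr rfl fun k hk => ?_
    simp only [mem_sdiff, mem_insert, mem_singleton, not_or] at hk
    rw [swap_apply_of_ne_of_ne hk.2.1 hk.2.2]
  rw [e3, swap_apply_left, swap_apply_right]
  have h1 : (i : ℕ) < j := hij
  have h2 : (w i : ℕ) < w j := h
  obtain ⟨c, hc⟩ := Nat.exists_eq_add_of_lt h1
  obtain ⟨d, hd⟩ := Nat.exists_eq_add_of_lt h2
  rw [hc, hd]
  nlinarith

/-- a permutation without adjacent ascents is the longest one -/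
theorem eq_rev {w : Perm (Fin N)} (h : ∀ i j : Fin N, (i : ℕ) + 1 = j → w j < w i) :
    w = Fin.revPerm := by
  have hanti : StrictAnti w := by
    cases N with
    | zero => intro a; exact a.elim0
    | succ n =>
      refine Fin.strictAnti_iff_succ_lt.2 fun i => h _ _ ?_
      simp
  have hm : StrictMono (fun i => Fin.rev (w i)) := fun a b hab => by
    simpa using hanti hab
  have : (fun i => Fin.rev (w i)) = id := by
    refine (StrictMono.range_inj hm strictMono_id).1 ?_
    rw [Set.range_id, Set.eq_univ_iff_forall]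
    intro x
    exact ⟨w.symm (Fin.rev x), by simp⟩
  ext i
  have h1 := congrFun this i
  simp only [id] at h1
  have : w i = Fin.rev i := by rw [← h1, Fin.rev_rev]; exact congrArg w (by rw [h1])
  rw [this]; rfl

/-- downward induction in the weak order -/
theorem down_induction {p : Perm (Fin N) → Prop} (h0 : p Fin.revPerm)
    (hs : ∀ (w : Perm (Fin N)) (i j : Fin N), (i : ℕ) + 1 = j → w j < w i → p w →
      p (w * swap i j)) (w : Perm (Fin N)) : p w := by
  induction hk : mu w using Nat.strong_induction_on generalizing w with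
  | _ k ih =>
    by_cases h : ∀ i j : Fin N, (i : ℕ) + 1 = j → w j < w i
    · rw [eq_rev h]; exact h0
    · push Not at h
      obtain ⟨i, j, hij, hw⟩ := h
      have hlt : i < j := by
        have : (i : ℕ) < j := by omega
        exact this
      have hw' : w i < w j := lt_of_le_of_ne hw fun e => hlt.ne (w.injective e)
      have h1 := ih _ (by rw [← hk]; exact mu_lt hlt hw') (w * swap i j) rfl
      have h2 := hs (w * swap i j) i j hij (by
        rw [Perm.mul_apply, Perm.mul_apply, swap_apply_left, swap_apply_right]; exact hw') h1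
      rwa [mul_assoc, swap_mul_self, mul_one] at h2

end Pool.Agent.FKP.H35
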